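import Mathlib

open Finset

namespace Pool.Agent.Results.MP_eb8f1d_pr.Asymp

/-- Probability of the outcome `s` (`true` = heads). -/
def wt {n : ℕ} (p : ℝ) (s : Fin n → Bool) : ℝ := ∏ i, if s i then p else 1 - p

/-- Number of visible colours. -/
def X {n : ℕ} (h t : Fin n → Fin n) (s : Fin n → Bool) : ℕ :=
  (univ.image (fun i => if s i then h i else t i)).card

/-- Probability that at least `m` colours are visible. -/
noncomputable def Pr {n : ℕ} (p : ℝ) (h t : Fin n → Fin n) (m : ℤ) : ℝ :=
  ∑ s : Fin n → Bool, if m ≤ (X h t s : ℤ) then wt p s else 0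

lemma sum_cons {n : ℕ} (g : (Fin (n + 1) → Bool) → ℝ) :
    ∑ s, g s = ∑ s : Fin n → Bool, g (Fin.cons true s) + ∑ s : Fin n → Bool, g (Fin.cons false s) := by
  rw [← (Fin.consEquiv (fun _ => Bool)).sum_comp, Fintype.sum_prod_type, Fintype.sum_bool]
  rfl

lemma prodE {n : ℕ} (p : ℝ) (g : Fin n → Bool → ℝ) :
    ∑ s : Fin n → Bool, wt p s * ∏ i, g i (s i) = ∏ i, (p * g i true + (1 - p) * g i false) := by
  have := Finset.prod_univ_sum (fun _ : Fin n => (univ : Finset Bool))
    (fun i b => (if b then p else 1 - p) * g i b)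
  simp only [Fintype.sum_bool, if_true, Fintype.piFinset_univ] at this
  simp only [wt, ← Finset.prod_mul_distrib]
  rw [← this]
  simp

lemma wt_sum {n : ℕ} (p : ℝ) : ∑ s : Fin n → Bool, wt p s = 1 := by
  simpa using prodE (n := n) p (fun _ _ => 1)

lemma wt_nn {n : ℕ} {p : ℝ} (h0 : 0 < p) (h1 : p < 1) (s : Fin n → Bool) : 0 ≤ wt p s :=
  Finset.prod_nonneg fun i _ => by split_ifs <;> linarith

lemma var {p : ℝ} (h0 : 0 < p) (h1 : p < 1) (n : ℕ) : ∀ f : (Fin n → Bool) → ℝ,
    (∀ s s' i, (∀ j, j ≠ i → s j = s' j) → f s - f s' ≤ 1) →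
    ∑ s, wt p s * f s ^ 2 - (∑ s, wt p s * f s) ^ 2 ≤ n * (p * (1 - p)) := by
  induction n with
  | zero => intro f _; simp [wt]
  | succ n ih =>
    intro f hf
    have c : ∀ b : Bool, ∀ s s' : Fin n → Bool, ∀ i, (∀ j, j ≠ i → s j = s' j) →
        f (Fin.cons b s) - f (Fin.cons b s') ≤ 1 := fun b s s' i h =>
      hf _ _ i.succ fun j hj => by
        refine Fin.cases (fun _ => rfl) (fun k hk => ?_) j hj
        simpa using h k fun e => hk (by rw [e])
    have a := ih _ (c true)
    have b := ih _ (c false)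
    have d : ∀ x y : Bool, ∑ s : Fin n → Bool, wt p s * f (Fin.cons x s)
        - ∑ s : Fin n → Bool, wt p s * f (Fin.cons y s) ≤ 1 := by
      intro x y
      rw [← Finset.sum_sub_distrib, ← wt_sum (n := n) p]
      refine Finset.sum_le_sum fun s _ => ?_
      have := hf (Fin.cons x s) (Fin.cons y s) 0 fun j hj => by
        refine Fin.cases (fun h => absurd rfl h) (fun k _ => by simp) j hj
      nlinarith [wt_nn h0 h1 s]
    have w1 : ∀ s : Fin n → Bool, wt p (Fin.cons true s : Fin (n + 1) → Bool) = p * wt p s :=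
      fun s => by simp [wt, Fin.prod_univ_succ]
    have w2 : ∀ s : Fin n → Bool,
        wt p (Fin.cons false s : Fin (n + 1) → Bool) = (1 - p) * wt p s :=
      fun s => by simp [wt, Fin.prod_univ_succ]
    rw [sum_cons, sum_cons]
    simp only [w1, w2, mul_assoc, ← Finset.mul_sum]
    have d1 := d true false
    have d2 := d false true
    generalize ∑ s : Fin n → Bool, wt p s * f (Fin.cons true s) = A at *
    generalize ∑ s : Fin n → Bool, wt p s * f (Fin.cons false s) = B at *
    have e : (A - B) ^ 2 ≤ 1 := by nlinarith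
    have q : 0 < 1 - p := by linarith
    push_cast
    nlinarith [mul_le_mul_of_nonneg_left a h0.le, mul_le_mul_of_nonneg_left b q.le,
      mul_le_mul_of_nonneg_left e (mul_pos h0 q).le]

lemma lip {n : ℕ} (h t : Fin n → Fin n) (s s' : Fin n → Bool) (i : Fin n)
    (e : ∀ j, j ≠ i → s j = s' j) : (X h t s : ℝ) - X h t s' ≤ 1 := by
  have : X h t s ≤ X h t s' + 1 := by
    refine (Finset.card_le_card ?_).trans
      (Finset.card_insert_le (if s i then h i else t i) _)
    intro y hy
    obtain ⟨j, -, rfl⟩ := Finset.mem_image.1 hy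
    by_cases hj : j = i
    · rw [hj]; exact Finset.mem_insert_self _ _
    · exact Finset.mem_insert_of_mem (Finset.mem_image.2 ⟨j, Finset.mem_univ _, by rw [e j hj]⟩)
  have : (X h t s : ℝ) ≤ X h t s' + 1 := by exact_mod_cast this
  linarith

lemma mean {n : ℕ} (p : ℝ) (h t : Fin n → Fin n) (hh : ∀ i, h i ≠ t i) :
    ∑ s, wt p s * X h t s
      = n - ∑ j, ∏ i, ((if h i = j then 1 - p else 1) * (if t i = j then p else 1)) := by
  have e : ∀ s, (X h t s : ℝ)
      = n - ∑ j, ∏ i, (if (if s i then h i else t i) = j then (0 : ℝ) else 1) := by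
    intro s
    have : ∀ j, ∏ i, (if (if s i then h i else t i) = j then (0 : ℝ) else 1)
        = 1 - if j ∈ univ.image (fun i => if s i then h i else t i) then 1 else 0 := by
      intro j
      by_cases hj : j ∈ univ.image (fun i => if s i then h i else t i)
      · rw [if_pos hj, sub_self]
        obtain ⟨i, -, hi⟩ := Finset.mem_image.1 hj
        exact Finset.prod_eq_zero (Finset.mem_univ i) (if_pos hi)
      · rw [if_neg hj, sub_zero]
        exact Finset.prod_eq_one fun i _ =>
          if_neg fun hi => hj (Finset.mem_image.2 ⟨i, Finset.mem_univ _, hi⟩)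
    simp only [this, Finset.sum_sub_distrib, Finset.sum_ite_mem, Finset.univ_inter]
    simp [X]
  simp only [e, mul_sub, Finset.sum_sub_distrib, ← Finset.sum_mul, wt_sum, one_mul,
    Finset.mul_sum]
  rw [Finset.sum_comm]
  congr 1
  refine Finset.sum_congr rfl fun j _ => ?_
  rw [prodE p (fun i b => if (if b then h i else t i) = j then (0 : ℝ) else 1)]
  refine Finset.prod_congr rfl fun i _ => ?_
  have := hh i
  by_cases a : h i = j <;> by_cases b : t i = j <;> simp_all

lemma cant {n : ℕ} {p : ℝ} (h0 : 0 < p) (h1 : p < 1) (f : (Fin n → Bool) → ℝ) (V u : ℝ)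
    (hu : 0 < u) (hV : ∑ s, wt p s * f s ^ 2 - (∑ s, wt p s * f s) ^ 2 ≤ V)
    (P : (Fin n → Bool) → Prop) [DecidablePred P]
    (hP : ∀ s, P s → u ≤ f s - ∑ s, wt p s * f s) :
    4 * u ^ 2 * (∑ s, if P s then wt p s else 0) ≤ V + u ^ 2 := by
  generalize hm : ∑ s, wt p s * f s = μ at *
  have a : 4 * u ^ 2 * (∑ s, if P s then wt p s else 0) ≤ ∑ s, wt p s * (f s - μ + u) ^ 2 := by
    rw [Finset.mul_sum]
    refine Finset.sum_le_sum fun s _ => ?_
    have w := wt_nn h0 h1 s
    split_ifs with h
    · have := hP s h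
      have : 4 * u ^ 2 ≤ (f s - μ + u) ^ 2 := by nlinarith
      nlinarith
    · rw [mul_zero]; positivity
  have b : ∀ s, wt p s * (f s - μ + u) ^ 2
      = wt p s * f s ^ 2 + 2 * (u - μ) * (wt p s * f s) + (u - μ) ^ 2 * wt p s := fun s => by ring
  simp only [b, Finset.sum_add_distrib, ← Finset.mul_sum, hm, wt_sum] at a
  nlinarith

theorem result (n : ℕ) (hn : 2 ≤ n) (p : ℝ) (h0 : 0 < p) (h1 : p < 1) :
    (∀ h t : Fin n → Fin n, (∀ i, h i ≠ t i) → ∀ m : ℤ, 1 / 2 ≤ Pr p h t m →
      (m : ℝ) ≤ n * (1 - p * (1 - p)) + √(n * (p * (1 - p)))) ∧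
    (∀ h t : Equiv.Perm (Fin n), (∀ i, h i ≠ t i) → ∀ m : ℤ,
      (m : ℝ) ≤ n * (1 - p * (1 - p)) - √(n * (p * (1 - p))) → 1 / 2 ≤ Pr p h t m) ∧
    (∃ h t : Equiv.Perm (Fin n), ∀ i, h i ≠ t i) := by
  have q : 0 < 1 - p := by linarith
  have hn0 : (0 : ℝ) < n := by exact_mod_cast (by omega : 0 < n)
  have hV : 0 < (n : ℝ) * (p * (1 - p)) := by positivity
  have hs := Real.sqrt_pos.2 hV
  have hs2 := Real.sq_sqrt hV.le
  refine ⟨fun h t hh m hm => ?_, fun h t hh m hm => ?_, ?_⟩
  · by_contra hc
    push Not at hc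
    have mu : ∑ s, wt p s * X h t s ≤ n * (1 - p * (1 - p)) := by
      rw [mean p h t hh]
      have pos : ∀ i j, 0 < (if h i = j then 1 - p else 1) * (if t i = j then p else 1) := by
        intro i j; split_ifs <;> positivity
      have a : ∀ j, p * (1 - p) * (1 + ∑ i, Real.log ((if h i = j then 1 - p else 1) *
          (if t i = j then p else 1)) - Real.log (p * (1 - p)))
          ≤ ∏ i, ((if h i = j then 1 - p else 1) * (if t i = j then p else 1)) := by
        intro j
        rw [← Real.log_prod (fun i _ => (pos i j).ne')]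
        have pp := Finset.prod_pos (s := univ) (fun i _ => pos i j)
        generalize ∏ i, ((if h i = j then 1 - p else 1) * (if t i = j then p else 1)) = y at *
        have := Real.log_le_sub_one_of_pos (div_pos pp (mul_pos h0 q))
        rw [Real.log_div pp.ne' (mul_pos h0 q).ne'] at this
        have e : p * (1 - p) * (y / (p * (1 - p))) = y := by field_simp
        nlinarith [mul_le_mul_of_nonneg_left this (mul_pos h0 q).le]
      have b := Finset.sum_le_sum (s := univ) (fun j _ => a j)
      have c : ∀ i, ∑ j, Real.log ((if h i = j then 1 - p else 1) * (if t i = j then p else 1))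
          = Real.log (p * (1 - p)) := by
        intro i
        rw [← Real.log_prod (fun j _ => (pos i j).ne'), Finset.prod_mul_distrib]
        simp [mul_comm]
      rw [← Finset.mul_sum, Finset.sum_sub_distrib, Finset.sum_add_distrib, Finset.sum_comm] at b
      simp only [c, Finset.sum_const, Finset.card_univ, Fintype.card_fin, nsmul_eq_mul] at b
      nlinarith
    have k := cant h0 h1 (fun s => (X h t s : ℝ)) _ (m - ∑ s, wt p s * X h t s) (by linarith)
      (var h0 h1 n _ (lip h t)) (fun s => m ≤ (X h t s : ℤ)) (fun s hs => by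
        have : (m : ℝ) ≤ X h t s := by exact_mod_cast hs
        linarith)
    unfold Pr at hm
    generalize ∑ s, wt p s * X h t s = μ at *
    have u : √(n * (p * (1 - p))) < m - μ := by linarith
    have u2 : n * (p * (1 - p)) < (m - μ) ^ 2 := by nlinarith
    nlinarith [mul_le_mul_of_nonneg_left hm (sq_nonneg (m - μ))]
  · have mu : ∑ s, wt p s * X h t s = n * (1 - p * (1 - p)) := by
      rw [mean p h t hh]
      simp only [Finset.prod_mul_distrib, ← Equiv.eq_symm_apply]
      simp
      ring
    have v := var h0 h1 n (fun s => -(X h t s : ℝ)) (fun s s' i e => by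
      have := lip h t s' s i (fun j hj => (e j hj).symm); linarith)
    have k := cant h0 h1 (fun s => -(X h t s : ℝ)) _ _ hs v (fun s => ¬ m ≤ (X h t s : ℤ))
      (fun s hs => by
        have : (X h t s : ℝ) ≤ m := by exact_mod_cast (not_le.1 hs).le
        simp only [mul_neg, Finset.sum_neg_distrib, mu]
        linarith)
    have e : Pr p h t m + ∑ s, (if ¬ m ≤ (X h t s : ℤ) then wt p s else 0) = 1 := by
      unfold Pr
      rw [← Finset.sum_add_distrib, ← wt_sum (n := n) p]
      exact Finset.sum_congr rfl fun s _ => by split_ifs <;> simp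
    rw [hs2] at k
    nlinarith
  · obtain ⟨k, rfl⟩ : ∃ k, n = k + 2 := ⟨n - 2, by omega⟩
    refine ⟨1, Equiv.addRight 1, fun i => ?_⟩
    simp

end Pool.Agent.Results.MP_eb8f1d_pr.Asymp
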